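import Mathlib

set_option autoImplicit false
open Classical

/-!
# Finite digraphs given by out-neighbourhoods: iterated successors, popular values, types
(for MP_fac9f6_co)
-/

namespace Pool.Agent.TH418.OC

variable {V : Type} [Fintype V]

/-- the vertices that can be reached from `x` by a directed walk of length exactly `r` -/
noncomputable def R (N : V → Finset V) : ℕ → V → Finset V
  | 0, x => {x}
  | r + 1, x => (N x).biUnion (R N r)

omit [Fintype V] in
lemma mem_R_zero {N : V → Finset V} {x z : V} : z ∈ R N 0 x ↔ z = x := by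
  simp [R]

omit [Fintype V] in
lemma mem_R_succ {N : V → Finset V} {r : ℕ} {x z : V} :
    z ∈ R N (r + 1) x ↔ ∃ u ∈ N x, z ∈ R N r u := by
  simp [R]

omit [Fintype V] in
lemma R_append {N : V → Finset V} {j : ℕ} : ∀ {v y x : V}, y ∈ R N j v → x ∈ N y →
    x ∈ R N (j + 1) v := by
  induction j with
  | zero =>
    intro v y x hy hx
    rw [mem_R_zero] at hy
    subst hy
    rw [mem_R_succ]
    exact ⟨x, hx, by rw [mem_R_zero]⟩
  | succ j ih =>
    intro v y x hy hx
    rw [mem_R_succ] at hy
    obtain ⟨u, hu, hy⟩ := hy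
    rw [mem_R_succ]
    exact ⟨u, hu, ih hy hx⟩

omit [Fintype V] in
lemma R_mono {N N' : V → Finset V} (h : ∀ x, N' x ⊆ N x) (r : ℕ) :
    ∀ x, R N' r x ⊆ R N r x := by
  induction r with
  | zero => intro x z hz; simpa [R] using hz
  | succ r ih =>
    intro x z hz
    rw [mem_R_succ] at hz ⊢
    obtain ⟨u, hu, hz⟩ := hz
    exact ⟨u, h x hu, ih u hz⟩

omit [Fintype V] in
lemma R_nonempty {N : V → Finset V} (h : ∀ x, (N x).Nonempty) (r : ℕ) :
    ∀ x, (R N r x).Nonempty := by
  induction r with
  | zero => intro x; exact ⟨x, by rw [mem_R_zero]⟩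
  | succ r ih =>
    intro x
    obtain ⟨u, hu⟩ := h x
    obtain ⟨z, hz⟩ := ih u
    exact ⟨z, mem_R_succ.2 ⟨u, hu, hz⟩⟩

omit [Fintype V] in
lemma R_card {N : V → Finset V} {d : ℕ} (h : ∀ x, (N x).card ≤ d) (r : ℕ) :
    ∀ x, (R N r x).card ≤ d ^ r := by
  induction r with
  | zero => intro x; simp [R]
  | succ r ih =>
    intro x
    have h1 : (R N (r + 1) x).card ≤ (N x).card * d ^ r :=
      Finset.card_biUnion_le_card_mul _ _ _ (fun u _ => ih u)
    calc (R N (r + 1) x).card ≤ (N x).card * d ^ r := h1
      _ ≤ d * d ^ r := Nat.mul_le_mul_right _ (h x)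
      _ = d ^ (r + 1) := by ring

omit [Fintype V] in
/-- a popular value of `f` on `S` -/
lemma popular {Q : Type} [Fintype Q] [Nonempty Q] (S : Finset V) (f : V → Q) :
    ∃ c : Q, S.card ≤ Fintype.card Q * (S.filter (fun x => f x = c)).card := by
  by_contra hno
  push Not at hno
  have h1 : ∑ c : Q, (S.filter (fun x => f x = c)).card = S.card :=
    (Finset.card_eq_sum_card_fiberwise (f := f) (s := S) (t := Finset.univ)
      (fun x _ => Finset.mem_univ _)).symm
  have h2 : ∑ c : Q, Fintype.card Q * (S.filter (fun x => f x = c)).card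
      < ∑ _c : Q, S.card := Finset.sum_lt_sum_of_nonempty Finset.univ_nonempty
      (fun c _ => hno c)
  rw [← Finset.mul_sum, h1, Finset.sum_const, smul_eq_mul, Finset.card_univ] at h2
  exact lt_irrefl _ h2

omit [Fintype V] in
/-- refinement by types of depth `T` -/
theorem types {Q : Type} [Fintype Q] [Nonempty Q] (N : V → Finset V) (L : V → Q) (T : ℕ) :
    ∃ (N' : V → Finset V) (s : ℕ → V → Q), s 0 = L ∧ (∀ x, N' x ⊆ N x) ∧
      (∀ x, (N x).card ≤ (Fintype.card Q) ^ T * (N' x).card) ∧
      ∀ i < T, ∀ x, ∀ y ∈ N' x, s i y = s (i + 1) x := by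
  induction T with
  | zero =>
    exact ⟨N, fun _ => L, rfl, fun x => Finset.Subset.refl _, fun x => by simp,
      fun i hi => absurd hi (Nat.not_lt_zero _)⟩
  | succ T ih =>
    obtain ⟨N1, s, hs0, hsub, hcard, hty⟩ := ih
    choose pop hpop using fun x => popular (N1 x) (s T)
    refine ⟨fun x => (N1 x).filter (fun y => s T y = pop x), Function.update s (T + 1) pop,
      ?_, ?_, ?_, ?_⟩
    · rw [Function.update_of_ne (by omega)]; exact hs0
    · intro x y hy
      exact hsub x (Finset.mem_filter.1 hy).1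
    · intro x
      calc (N x).card ≤ (Fintype.card Q) ^ T * (N1 x).card := hcard x
        _ ≤ (Fintype.card Q) ^ T * (Fintype.card Q *
            ((N1 x).filter (fun y => s T y = pop x)).card) := Nat.mul_le_mul_left _ (hpop x)
        _ = (Fintype.card Q) ^ (T + 1) * ((N1 x).filter (fun y => s T y = pop x)).card := by
            ring
    · intro i hi x y hy
      rw [Finset.mem_filter] at hy
      rcases Nat.lt_succ_iff_lt_or_eq.1 hi with h | h
      · rw [Function.update_of_ne (by omega), Function.update_of_ne (by omega)]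
        exact hty i h x y hy.1
      · subst h
        rw [Function.update_of_ne (by omega), Function.update_self]
        exact hy.2

omit [Fintype V] in
/-- types along directed walks -/
lemma types_walk {Q : Type} {N : V → Finset V} {s : ℕ → V → Q} {T : ℕ}
    (h : ∀ i < T, ∀ x, ∀ y ∈ N x, s i y = s (i + 1) x) (r : ℕ) :
    ∀ x z, z ∈ R N r x → ∀ i, i + r ≤ T → s i z = s (i + r) x := by
  induction r with
  | zero =>
    intro x z hz i _
    rw [mem_R_zero] at hz
    rw [hz, Nat.add_zero]
  | succ r ih =>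
    intro x z hz i hi
    rw [mem_R_succ] at hz
    obtain ⟨u, hu, hz⟩ := hz
    rw [ih u z hz i (by omega), h (i + r) (by omega) x u hu]
    rfl

end Pool.Agent.TH418.OC
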