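import Mathlib
import Pool.Agent.TH418.OC.Basic

set_option autoImplicit false
open Classical

/-!
# The degeneracy order (for MP_fac9f6_co)
-/

namespace Pool.Agent.TH418.OC

variable {V : Type} [Fintype V]

/-- counting walks of length `j` starting in `Y` -/
lemma sum_pred (N : V → Finset V) (d : ℕ) (hd : ∀ x, (N x).card ≤ d) (j : ℕ) (Y : Finset V)
    (H : Finset V) :
    ∑ x ∈ H, (Y.filter (fun v => x ∈ R N j v)).card ≤ Y.card * d ^ j := by
  calc ∑ x ∈ H, (Y.filter (fun v => x ∈ R N j v)).card
      ≤ ∑ x : V, (Y.filter (fun v => x ∈ R N j v)).card :=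
        Finset.sum_le_sum_of_subset (Finset.subset_univ _)
    _ = ∑ v ∈ Y, (Finset.univ.filter (fun x => x ∈ R N j v)).card := by
        have := Finset.sum_card_bipartiteAbove_eq_sum_card_bipartiteBelow (s := Y)
          (t := (Finset.univ : Finset V)) (fun v x => x ∈ R N j v)
        unfold Finset.bipartiteAbove Finset.bipartiteBelow at this
        exact this.symm
    _ ≤ ∑ _v ∈ Y, d ^ j := by
        apply Finset.sum_le_sum
        intro v _
        have : (Finset.univ.filter (fun x => x ∈ R N j v)) = R N j v := by
          ext x; simp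
        rw [this]
        exact R_card hd j v
    _ = Y.card * d ^ j := by rw [Finset.sum_const, smul_eq_mul]

/-- a vertex that can be put last -/
lemma exists_last (N : V → Finset V) (d : ℕ) (hd : ∀ x, (N x).card ≤ d) (p : ℕ)
    (Y : Finset V) (hY : Y.Nonempty) :
    ∃ v0 ∈ Y, ∀ x j r, j + r = p → v0 ∈ R N r x →
      (Y.filter (fun v => x ∈ R N j v)).card ≤ (p + 1) * d ^ p := by
  by_contra hno
  push Not at hno
  set K : ℕ := (p + 1) * d ^ p with hK
  set H : ℕ → Finset V := fun r =>
    Finset.univ.filter (fun x => K < (Y.filter (fun v => x ∈ R N (p - r) v)).card) with hH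
  have hcov : Y ⊆ (Finset.range (p + 1)).biUnion (fun r => (H r).biUnion (fun x => R N r x)) := by
    intro v hv
    obtain ⟨x, j, r, hjr, hvx, hlt⟩ := hno v hv
    rw [Finset.mem_biUnion]
    refine ⟨r, Finset.mem_range.2 (by omega), ?_⟩
    rw [Finset.mem_biUnion]
    refine ⟨x, ?_, hvx⟩
    rw [hH, Finset.mem_filter]
    refine ⟨Finset.mem_univ _, ?_⟩
    have : p - r = j := by omega
    rw [this]
    exact hlt
  have hHc : ∀ r ∈ Finset.range (p + 1), (H r).card * (K + 1) ≤ Y.card * d ^ (p - r) := by
    intro r _
    refine le_trans ?_ (sum_pred N d hd (p - r) Y (H r))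
    rw [← smul_eq_mul, ← Finset.sum_const]
    apply Finset.sum_le_sum
    intro x hx
    rw [hH, Finset.mem_filter] at hx
    exact hx.2
  have h1 : Y.card ≤ ∑ r ∈ Finset.range (p + 1), (H r).card * d ^ r := by
    refine le_trans (Finset.card_le_card hcov) (le_trans Finset.card_biUnion_le ?_)
    apply Finset.sum_le_sum
    intro r _
    exact Finset.card_biUnion_le_card_mul _ _ _ (fun x _ => R_card hd r x)
  have h2 : Y.card * (K + 1) ≤ Y.card * K := by
    calc Y.card * (K + 1) ≤ (∑ r ∈ Finset.range (p + 1), (H r).card * d ^ r) * (K + 1) :=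
          Nat.mul_le_mul_right _ h1
      _ = ∑ r ∈ Finset.range (p + 1), ((H r).card * (K + 1)) * d ^ r := by
          rw [Finset.sum_mul]
          apply Finset.sum_congr rfl
          intro r _
          ring
      _ ≤ ∑ r ∈ Finset.range (p + 1), (Y.card * d ^ (p - r)) * d ^ r := by
          apply Finset.sum_le_sum
          intro r hr
          exact Nat.mul_le_mul_right _ (hHc r hr)
      _ = ∑ _r ∈ Finset.range (p + 1), Y.card * d ^ p := by
          apply Finset.sum_congr rfl
          intro r hr
          rw [Finset.mem_range] at hr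
          rw [mul_assoc, ← pow_add]
          congr 2
          omega
      _ = Y.card * K := by
          rw [Finset.sum_const, Finset.card_range, smul_eq_mul, hK]
          ring
  have h3 : 0 < Y.card := Finset.card_pos.2 hY
  rw [Nat.mul_add, Nat.mul_one] at h2
  omega

/-- There is an order in which, for each `x` and each way `j + r = p` of splitting `p`, all but
boundedly many of the vertices from which `x` is reached in `j` steps come after all vertices that
are reached from `x` in `r` steps. -/
theorem order (N : V → Finset V) (d : ℕ) (hd : ∀ x, (N x).card ≤ d) (p : ℕ) :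
    ∃ pos : V → ℕ, Function.Injective pos ∧ ∀ x j r, j + r = p →
      (Finset.univ.filter (fun v => x ∈ R N j v ∧ ∃ z ∈ R N r x, pos v ≤ pos z)).card
        ≤ (p + 1) * d ^ p := by
  have main : ∀ (m : ℕ) (Y : Finset V), Y.card = m → ∃ pos : V → ℕ,
      (∀ v ∈ Y, pos v < m) ∧ Set.InjOn pos Y ∧ ∀ x j r, j + r = p → R N r x ⊆ Y →
      (Y.filter (fun v => x ∈ R N j v ∧ ∃ z ∈ R N r x, pos v ≤ pos z)).card
        ≤ (p + 1) * d ^ p := by
    intro m
    induction m with
    | zero =>
      intro Y hY
      rw [Finset.card_eq_zero] at hY
      subst hY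
      refine ⟨fun _ => 0, by simp, by simp, ?_⟩
      intro x j r _ _
      simp
    | succ m ih =>
      intro Y hY
      have hne : Y.Nonempty := by rw [← Finset.card_pos]; omega
      obtain ⟨v0, hv0, hlast⟩ := exists_last N d hd p Y hne
      obtain ⟨pos, hlt, hinj, hb⟩ := ih (Y.erase v0) (by rw [Finset.card_erase_of_mem hv0]; omega)
      refine ⟨Function.update pos v0 m, ?_, ?_, ?_⟩
      · intro v hv
        by_cases h : v = v0
        · subst h; rw [Function.update_self]; omega
        · rw [Function.update_of_ne h]
          have := hlt v (Finset.mem_erase.2 ⟨h, hv⟩)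
          omega
      · intro a ha b hb' hab
        rw [Finset.mem_coe] at ha hb'
        by_cases h1 : a = v0
        · by_cases h2 : b = v0
          · rw [h1, h2]
          · exfalso
            rw [h1, Function.update_self, Function.update_of_ne h2] at hab
            have := hlt b (Finset.mem_erase.2 ⟨h2, hb'⟩)
            omega
        · by_cases h2 : b = v0
          · exfalso
            rw [h2, Function.update_self, Function.update_of_ne h1] at hab
            have := hlt a (Finset.mem_erase.2 ⟨h1, ha⟩)
            omega
          · rw [Function.update_of_ne h1, Function.update_of_ne h2] at hab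
            exact hinj (Finset.mem_coe.2 (Finset.mem_erase.2 ⟨h1, ha⟩))
              (Finset.mem_coe.2 (Finset.mem_erase.2 ⟨h2, hb'⟩)) hab
      · intro x j r hjr hsub
        by_cases h : v0 ∈ R N r x
        · refine le_trans (Finset.card_le_card ?_) (hlast x j r hjr h)
          intro v hv
          rw [Finset.mem_filter] at hv ⊢
          exact ⟨hv.1, hv.2.1⟩
        · have hsub' : R N r x ⊆ Y.erase v0 := by
            intro z hz
            rw [Finset.mem_erase]
            exact ⟨fun he => h (he ▸ hz), hsub hz⟩
          refine le_trans (Finset.card_le_card ?_) (hb x j r hjr hsub')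
          intro v hv
          rw [Finset.mem_filter] at hv ⊢
          obtain ⟨hvY, hvx, z, hz, hle⟩ := hv
          have hzne : z ≠ v0 := fun he => h (he ▸ hz)
          have hzlt := hlt z (hsub' hz)
          have hvne : v ≠ v0 := by
            intro he
            rw [he, Function.update_self, Function.update_of_ne hzne] at hle
            omega
          rw [Function.update_of_ne hvne, Function.update_of_ne hzne] at hle
          exact ⟨Finset.mem_erase.2 ⟨hvne, hvY⟩, hvx, z, hz, hle⟩
  obtain ⟨pos, -, hinj, hb⟩ := main Finset.univ.card Finset.univ rfl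
  refine ⟨pos, ?_, ?_⟩
  · intro a b hab
    exact hinj (Finset.mem_coe.2 (Finset.mem_univ a)) (Finset.mem_coe.2 (Finset.mem_univ b)) hab
  · intro x j r hjr
    exact hb x j r hjr (Finset.subset_univ _)

end Pool.Agent.TH418.OC
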