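import Mathlib
import Pool.Agent.TH418.OC.Basic

set_option autoImplicit false
open Classical

/-!
# One pass of the colouring procedure (for MP_fac9f6_co)
-/

namespace Pool.Agent.TH418.OC

variable {V : Type} [Fintype V]

/-- If `p`-step successors of the vertices in `U` have larger position, then we can thin out the
out-neighbourhoods by a factor `2 ^ p` and two-colour the vertices so that the colour of a vertex in
`U` differs from the colour of each of its `p`-step successors. -/
theorem pass (N : V → Finset V) (hN : ∀ x, (N x).Nonempty) (pos : V → ℕ) (p : ℕ) (hp : 1 ≤ p)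
    (U : V → Prop) (hU : ∀ v, U v → ∀ y ∈ R N p v, pos v < pos y) :
    ∃ (N' : V → Finset V) (g : V → Bool), (∀ x, N' x ⊆ N x) ∧
      (∀ x, (N x).card ≤ 2 ^ p * (N' x).card) ∧
      ∀ v, U v → ∀ y ∈ R N' p v, g y ≠ g v := by
  set τ : V → ℕ → ℕ := fun x r => (R N r x).inf' (R_nonempty hN r x) pos with hτ
  set P : ℕ := Finset.univ.sup pos + 1 with hP
  have hposP : ∀ v, pos v + 1 ≤ P := fun v => by
    rw [hP]; exact Nat.succ_le_succ (Finset.le_sup (f := pos) (Finset.mem_univ v))
  have hτP : ∀ x r, τ x r + 1 ≤ P := by
    intro x r
    obtain ⟨z, hz⟩ := R_nonempty hN r x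
    exact le_trans (Nat.succ_le_succ (Finset.inf'_le pos hz)) (hposP z)
  have hτstep : ∀ x r, ∀ u ∈ N x, τ x (r + 1) ≤ τ u r := by
    intro x r u hu
    rw [hτ]
    apply Finset.le_inf'
    intro z hz
    exact Finset.inf'_le pos (mem_R_succ.2 ⟨u, hu, hz⟩)
  have hτ0 : ∀ v, τ v 0 = pos v := by
    intro v
    rw [hτ]
    apply le_antisymm
    · exact Finset.inf'_le pos (mem_R_zero.2 rfl)
    · apply Finset.le_inf'
      intro z hz
      rw [mem_R_zero] at hz
      rw [hz]
  have hτU : ∀ v, U v → τ v 0 + 1 ≤ τ v p := by
    intro v hv
    rw [hτ0]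
    apply Finset.le_inf'
    intro z hz
    exact hU v hv z hz
  set κ : V → ℕ → ℕ := fun x r => (P - τ x r) * (p + 1) + r with hκ
  have hκstep : ∀ x r, ∀ u ∈ N x, κ u r < κ x (r + 1) := by
    intro x r u hu
    have h1 := hτstep x r u hu
    have h2 : (P - τ u r) * (p + 1) ≤ (P - τ x (r + 1)) * (p + 1) :=
      Nat.mul_le_mul_right _ (by omega)
    simp only [hκ]
    omega
  have hκU : ∀ v, U v → κ v p < κ v 0 := by
    intro v hv
    have h1 := hτU v hv
    have h2 := hτP v p
    have h3 : (P - τ v p + 1) * (p + 1) ≤ (P - τ v 0) * (p + 1) :=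
      Nat.mul_le_mul_right _ (by omega)
    simp only [hκ]
    have h4 : (P - τ v p + 1) * (p + 1) = (P - τ v p) * (p + 1) + (p + 1) := by ring
    omega
  have hκmod : ∀ x r, r ≤ p → κ x r % (p + 1) = r := by
    intro x r hr
    simp only [hκ]
    rw [Nat.mul_add_mod_self_right]
    exact Nat.mod_eq_of_lt (by omega)
  -- induction on the threshold
  have main : ∀ K : ℕ, ∃ (N' : V → Finset V) (c : V → ℕ → Bool), (∀ x, N' x ⊆ N x) ∧
      (∀ x, (N x).card ≤ 2 ^ ((Finset.Icc 1 p).filter (fun r => κ x r < K)).card * (N' x).card) ∧
      (∀ x r, r < p → κ x (r + 1) < K → ∀ u ∈ N' x, c u r = c x (r + 1)) ∧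
      (∀ v, U v → κ v 0 < K → c v 0 = !(c v p)) := by
    intro K
    induction K with
    | zero =>
      refine ⟨N, fun _ _ => true, fun x => Finset.Subset.refl _, fun x => ?_, ?_, ?_⟩
      · exact Nat.le_mul_of_pos_left _ (by positivity)
      · intro x r _ h; exact absurd h (Nat.not_lt_zero _)
      · intro v _ h; exact absurd h (Nat.not_lt_zero _)
    | succ K ih =>
      obtain ⟨N1, c, hsub, hcard, hc, hcU⟩ := ih
      choose pop hpop using fun (x : V) (r : ℕ) => popular (N1 x) (fun u => c u r)
      set r0 : ℕ := K % (p + 1) with hr0
      -- new colours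
      set c' : V → ℕ → Bool := fun x r =>
        if κ x r = K then (if r = 0 then !(c x p) else pop x (r - 1)) else c x r with hc'
      set N2 : V → Finset V := fun x =>
        if 1 ≤ r0 ∧ κ x r0 = K then (N1 x).filter (fun u => c u (r0 - 1) = pop x (r0 - 1))
        else N1 x with hN2
      have hN21 : ∀ x, N2 x ⊆ N1 x := by
        intro x
        simp only [hN2]
        split_ifs
        · exact Finset.filter_subset _ _
        · exact Finset.Subset.refl _
      refine ⟨N2, c', fun x => (hN21 x).trans (hsub x), ?_, ?_, ?_⟩
      · intro x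
        by_cases h : 1 ≤ r0 ∧ κ x r0 = K
        · have hr0p : r0 ≤ p := by
            have : r0 < p + 1 := Nat.mod_lt _ (by omega)
            omega
          have h1 : (N1 x).card ≤ 2 * (N2 x).card := by
            have := hpop x (r0 - 1)
            simp only [Fintype.card_bool] at this
            simp only [hN2, h, and_self, if_true]
            convert this
          have h2 : ((Finset.Icc 1 p).filter (fun r => κ x r < K)).card + 1
              ≤ ((Finset.Icc 1 p).filter (fun r => κ x r < K + 1)).card := by
            have hnot : r0 ∉ (Finset.Icc 1 p).filter (fun r => κ x r < K) := by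
              rw [Finset.mem_filter]
              rintro ⟨-, hlt⟩
              omega
            rw [← Finset.card_insert_of_notMem hnot]
            apply Finset.card_le_card
            intro r hr
            rw [Finset.mem_insert] at hr
            rcases hr with rfl | hr
            · rw [Finset.mem_filter, Finset.mem_Icc]
              exact ⟨⟨h.1, hr0p⟩, by omega⟩
            · rw [Finset.mem_filter] at hr ⊢
              exact ⟨hr.1, by omega⟩
          calc (N x).card
              ≤ 2 ^ ((Finset.Icc 1 p).filter (fun r => κ x r < K)).card * (N1 x).card := hcard x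
            _ ≤ 2 ^ ((Finset.Icc 1 p).filter (fun r => κ x r < K)).card * (2 * (N2 x).card) :=
                Nat.mul_le_mul_left _ h1
            _ = 2 ^ (((Finset.Icc 1 p).filter (fun r => κ x r < K)).card + 1) * (N2 x).card := by
                ring
            _ ≤ 2 ^ ((Finset.Icc 1 p).filter (fun r => κ x r < K + 1)).card * (N2 x).card :=
                Nat.mul_le_mul_right _ (Nat.pow_le_pow_right (by norm_num) h2)
        · have h1 : N2 x = N1 x := by simp only [hN2, h, if_false]
          rw [h1]
          refine le_trans (hcard x) (Nat.mul_le_mul_right _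
            (Nat.pow_le_pow_right (by norm_num) (Finset.card_le_card ?_)))
          intro r hr
          rw [Finset.mem_filter] at hr ⊢
          exact ⟨hr.1, by omega⟩
      · intro x r hr hlt u hu
        have huN : u ∈ N x := hsub x (hN21 x hu)
        have hk := hκstep x r u huN
        have hcu : c' u r = c u r := by
          simp only [hc']
          rw [if_neg (by omega)]
        rw [hcu]
        rcases Nat.lt_succ_iff_lt_or_eq.1 hlt with h | h
        · have hcx : c' x (r + 1) = c x (r + 1) := by
            simp only [hc']
            rw [if_neg (by omega)]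
          rw [hcx]
          exact hc x r hr h u (hN21 x hu)
        · have hmod := hκmod x (r + 1) (by omega)
          rw [h] at hmod
          have hr0' : r0 = r + 1 := by rw [hr0]; exact hmod
          have hcx : c' x (r + 1) = pop x r := by
            simp only [hc']
            rw [if_pos h, if_neg (by omega)]
            rfl
          have hu2 : u ∈ (N1 x).filter (fun u => c u (r0 - 1) = pop x (r0 - 1)) := by
            have := hu
            simp only [hN2] at this
            rwa [if_pos ⟨by omega, by rw [hr0']; exact h⟩] at this
          rw [Finset.mem_filter, hr0'] at hu2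
          rw [hcx]
          exact hu2.2
      · intro v hv hlt
        have hk := hκU v hv
        have hcp : c' v p = c v p := by
          simp only [hc']
          rw [if_neg (by omega)]
        rw [hcp]
        rcases Nat.lt_succ_iff_lt_or_eq.1 hlt with h | h
        · have hc0 : c' v 0 = c v 0 := by
            simp only [hc']
            rw [if_neg (by omega)]
          rw [hc0]
          exact hcU v hv h
        · simp only [hc']
          rw [if_pos h]
          simp
  obtain ⟨N', c, hsub, hcard, hc, hcU⟩ := main (P * (p + 1) + p + 1)
  have hκlt : ∀ x r, r ≤ p → κ x r < P * (p + 1) + p + 1 := by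
    intro x r hr
    have : (P - τ x r) * (p + 1) ≤ P * (p + 1) := Nat.mul_le_mul_right _ (Nat.sub_le _ _)
    simp only [hκ]
    omega
  refine ⟨N', fun v => c v 0, hsub, ?_, ?_⟩
  · intro x
    refine le_trans (hcard x) (Nat.mul_le_mul_right _ (Nat.pow_le_pow_right (by norm_num) ?_))
    calc ((Finset.Icc 1 p).filter (fun r => κ x r < P * (p + 1) + p + 1)).card
        ≤ (Finset.Icc 1 p).card := Finset.card_filter_le _ _
      _ = p := by simp
  · have hwalk : ∀ r, r ≤ p → ∀ x y, y ∈ R N' r x → c y 0 = c x r := by
      intro r
      induction r with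
      | zero =>
        intro _ x y hy
        rw [mem_R_zero] at hy
        rw [hy]
      | succ r ih =>
        intro hr x y hy
        rw [mem_R_succ] at hy
        obtain ⟨u, hu, hy⟩ := hy
        rw [ih (by omega) u y hy]
        exact hc x r (by omega) (hκlt x (r + 1) hr) u hu
    intro v hv y hy
    have h1 := hwalk p le_rfl v y hy
    have h2 := hcU v hv (hκlt v 0 (by omega))
    show c y 0 ≠ c v 0
    rw [h1, h2]
    cases c v p <;> simp

end Pool.Agent.TH418.OC
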