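import Mathlib
import Pool.Agent.TH418.OC.Basic

set_option autoImplicit false
open Classical

/-!
# Partition of a set into consecutive blocks (for MP_fac9f6_co)
-/

namespace Pool.Agent.TH418.OC

variable {V : Type}

lemma top_subset (S : Finset V) (f : V → ℕ) : ∀ δ : ℕ, δ ≤ S.card →
    ∃ S0 ⊆ S, S0.card = δ ∧ ∀ a ∈ S \ S0, ∀ b ∈ S0, f a ≤ f b := by
  intro δ
  induction δ with
  | zero =>
    intro _
    exact ⟨∅, Finset.empty_subset _, rfl, by simp⟩
  | succ δ ih =>
    intro h
    obtain ⟨S0, hsub, hcard, hmax⟩ := ih (by omega)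
    have hne : (S \ S0).Nonempty := by
      rw [← Finset.card_pos, Finset.card_sdiff_of_subset hsub]
      omega
    obtain ⟨b0, hb0, hb0max⟩ := Finset.exists_max_image (S \ S0) f hne
    rw [Finset.mem_sdiff] at hb0
    refine ⟨insert b0 S0, ?_, ?_, ?_⟩
    · intro x hx
      rw [Finset.mem_insert] at hx
      rcases hx with rfl | hx
      · exact hb0.1
      · exact hsub hx
    · rw [Finset.card_insert_of_notMem hb0.2, hcard]
    · intro a ha b hb
      rw [Finset.mem_sdiff, Finset.mem_insert, not_or] at ha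
      rw [Finset.mem_insert] at hb
      have ha' : a ∈ S \ S0 := Finset.mem_sdiff.2 ⟨ha.1, ha.2.2⟩
      rcases hb with rfl | hb
      · exact hb0max a ha'
      · exact hmax a ha' b hb

/-- consecutive blocks of size `δ` in the order given by `f` -/
lemma blocks (f : V → ℕ) (δ : ℕ) : ∀ (t : ℕ) (S : Finset V), S.card = t * δ →
    ∃ β : V → ℕ, (∀ u ∈ S, β u < t) ∧ (∀ i < t, (S.filter (fun u => β u = i)).card = δ) ∧
      ∀ u ∈ S, ∀ u' ∈ S, β u < β u' → f u ≤ f u' := by
  intro t
  induction t with
  | zero =>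
    intro S hS
    rw [Nat.zero_mul, Finset.card_eq_zero] at hS
    subst hS
    exact ⟨fun _ => 0, by simp, fun i hi => absurd hi (Nat.not_lt_zero _), by simp⟩
  | succ t ih =>
    intro S hS
    have hSδ : δ ≤ S.card := by rw [hS, Nat.succ_mul]; omega
    obtain ⟨S0, hsub, hcard, hmax⟩ := top_subset S f δ hSδ
    have hc : (S \ S0).card = t * δ := by
      rw [Finset.card_sdiff_of_subset hsub, hS, hcard, Nat.succ_mul]
      omega
    obtain ⟨β, h1, h2, h3⟩ := ih (S \ S0) hc
    refine ⟨fun u => if u ∈ S0 then t else β u, ?_, ?_, ?_⟩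
    · intro u hu
      by_cases h : u ∈ S0
      · simp [h]
      · simp only [h, if_false]
        have := h1 u (Finset.mem_sdiff.2 ⟨hu, h⟩)
        omega
    · intro i hi
      rcases Nat.lt_succ_iff_lt_or_eq.1 hi with h | h
      · rw [← h2 i h]
        congr 1
        ext u
        simp only [Finset.mem_filter, Finset.mem_sdiff]
        constructor
        · rintro ⟨hu, he⟩
          by_cases h0 : u ∈ S0
          · rw [if_pos h0] at he; omega
          · rw [if_neg h0] at he; exact ⟨⟨hu, h0⟩, he⟩
        · rintro ⟨⟨hu, h0⟩, he⟩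
          rw [if_neg h0]; exact ⟨hu, he⟩
      · subst h
        rw [← hcard]
        congr 1
        ext u
        simp only [Finset.mem_filter]
        constructor
        · rintro ⟨hu, he⟩
          by_contra h0
          rw [if_neg h0] at he
          have := h1 u (Finset.mem_sdiff.2 ⟨hu, h0⟩)
          omega
        · intro h0
          exact ⟨hsub h0, by rw [if_pos h0]⟩
    · intro u hu u' hu' hlt
      by_cases h0 : u ∈ S0
      · exfalso
        simp only [h0, if_true] at hlt
        by_cases h0' : u' ∈ S0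
        · simp only [h0', if_true] at hlt; omega
        · simp only [h0', if_false] at hlt
          have := h1 u' (Finset.mem_sdiff.2 ⟨hu', h0'⟩)
          omega
      · by_cases h0' : u' ∈ S0
        · exact hmax u (Finset.mem_sdiff.2 ⟨hu, h0⟩) u' h0'
        · simp only [h0, h0', if_false] at hlt
          exact h3 u (Finset.mem_sdiff.2 ⟨hu, h0⟩) u' (Finset.mem_sdiff.2 ⟨hu', h0'⟩) hlt

/-- a block captures the position `q` -/
def Cap (lo hi : V → ℕ) (q : ℕ) (S : Finset V) : Prop :=
  (∃ u ∈ S, lo u ≤ q) ∧ (∃ u ∈ S, q ≤ hi u)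

/-- few blocks capture a position that is captured by few elements -/
lemma cap_count (S : Finset V) (t b : ℕ) (lo hi : V → ℕ) (hlh : ∀ u, lo u ≤ hi u) (β : V → ℕ)
    (hβ : ∀ u ∈ S, ∀ u' ∈ S, β u < β u' → lo u ≤ lo u') (q : ℕ)
    (hcap : (S.filter (fun u => lo u ≤ q ∧ q ≤ hi u)).card ≤ b) :
    ((Finset.univ : Finset (Fin t)).filter
      (fun i : Fin t => Cap lo hi q (S.filter (fun u => β u = (i : ℕ))))).card ≤ b + 1 := by
  set Bad := (Finset.univ : Finset (Fin t)).filter
      (fun i : Fin t => Cap lo hi q (S.filter (fun u => β u = (i : ℕ)))) with hBad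
  set C := S.filter (fun u => lo u ≤ q ∧ q ≤ hi u) with hC
  set Bad0 := Bad.filter (fun i : Fin t => ∀ u ∈ C, β u ≠ (i : ℕ)) with hBad0
  have h1 : Bad0.card ≤ 1 := by
    rw [Finset.card_le_one]
    have aux : ∀ i ∈ Bad0, ∀ i' ∈ Bad0, ¬ (i < i') := by
      intro i hiB i' hiB' hlt
      rw [hBad0, Finset.mem_filter, hBad, Finset.mem_filter] at hiB hiB'
      obtain ⟨⟨-, -, u2, hu2, hhi⟩, hno⟩ := hiB
      obtain ⟨⟨-, ⟨u1, hu1, hlo⟩, -⟩, hno'⟩ := hiB'
      rw [Finset.mem_filter] at hu1 hu2
      have h2 : q < lo u2 := by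
        by_contra hle
        push Not at hle
        exact hno u2 (by rw [hC, Finset.mem_filter]; exact ⟨hu2.1, hle, hhi⟩) hu2.2
      have h3 : hi u1 < q := by
        by_contra hle
        push Not at hle
        exact hno' u1 (by rw [hC, Finset.mem_filter]; exact ⟨hu1.1, hlo, hle⟩) hu1.2
      have h4 : lo u2 ≤ lo u1 := by
        apply hβ u2 hu2.1 u1 hu1.1
        rw [hu1.2, hu2.2]
        exact hlt
      have h5 := hlh u1
      omega
    intro i hi i' hi'
    rcases lt_trichotomy i i' with h | h | h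
    · exact absurd h (aux i hi i' hi')
    · exact h
    · exact absurd h (aux i' hi' i hi)
  have h2 : (Bad \ Bad0).card ≤ C.card := by
    have hsub : (Bad \ Bad0).image (fun i : Fin t => (i : ℕ)) ⊆ C.image β := by
      intro k hk
      rw [Finset.mem_image] at hk
      obtain ⟨i, hi, rfl⟩ := hk
      rw [Finset.mem_sdiff] at hi
      have : ¬ ∀ u ∈ C, β u ≠ (i : ℕ) := by
        intro hall
        exact hi.2 (by rw [hBad0, Finset.mem_filter]; exact ⟨hi.1, hall⟩)
      push Not at this
      obtain ⟨u, hu, he⟩ := this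
      rw [Finset.mem_image]
      exact ⟨u, hu, he⟩
    have h3 := Finset.card_le_card hsub
    rw [Finset.card_image_of_injective _ Fin.val_injective] at h3
    exact h3.trans Finset.card_image_le
  have h3 : Bad.card = (Bad \ Bad0).card + Bad0.card :=
    (Finset.card_sdiff_add_card_eq_card (Finset.filter_subset _ _)).symm
  omega

end Pool.Agent.TH418.OC
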