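import Mathlib
import Pool.Agent.TH418.OC.Blocks
import Pool.Agent.Helper635.LLL

set_option autoImplicit false
open Classical

/-!
# One stage of thinning out, by the local lemma (for MP_fac9f6_co)
-/

namespace Pool.Agent.TH418.OC

variable {V : Type} [Fintype V]

open Pool.Agent.Helper635.LLL in
/-- counting functions with prescribed values on `W` -/
lemma cnt_le (t b : ℕ) (ht : 0 < t) (W : Finset V) (hW : W.card = b + 1)
    (G : V → Finset (Fin t)) (hG : ∀ x ∈ W, (G x).card ≤ b + 1)
    (B : (V → Fin t) → Prop) (hB : ∀ ω, B ω → ∀ x ∈ W, ω x ∈ G x) :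
    (cnt B : ℝ) ≤ (((b : ℝ) + 1) / t) ^ (b + 1) * Fintype.card (V → Fin t) := by
  have ht' : (0 : ℝ) < t := by exact_mod_cast ht
  have h1 : cnt B ≤ ∏ x : V, (if x ∈ W then b + 1 else t) := by
    have hsub : ev B ⊆ Fintype.piFinset (fun x => if x ∈ W then G x else Finset.univ) := by
      intro ω hω
      rw [mem_ev] at hω
      rw [Fintype.mem_piFinset]
      intro x
      by_cases h : x ∈ W
      · simp only [h, if_true]; exact hB ω hω x h
      · simp [h]
    calc cnt B = (ev B).card := rfl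
      _ ≤ (Fintype.piFinset (fun x => if x ∈ W then G x else Finset.univ)).card :=
          Finset.card_le_card hsub
      _ = ∏ x : V, (if x ∈ W then G x else Finset.univ).card := Fintype.card_piFinset _
      _ ≤ ∏ x : V, (if x ∈ W then b + 1 else t) := by
          apply Finset.prod_le_prod'
          intro x _
          by_cases h : x ∈ W
          · simp only [h, if_true]; exact hG x h
          · simp [h]
  have h2 : ((∏ x : V, (if x ∈ W then b + 1 else t) : ℕ) : ℝ)
      = (((b : ℝ) + 1) / t) ^ (b + 1) * Fintype.card (V → Fin t) := by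
    rw [Fintype.card_fun, Fintype.card_fin]
    push_cast
    have h3 : ∀ x : V, (if x ∈ W then (b : ℝ) + 1 else t)
        = t * (if x ∈ W then ((b : ℝ) + 1) / t else 1) := by
      intro x
      by_cases h : x ∈ W
      · simp only [h, if_true]; field_simp
      · simp [h]
    rw [Finset.prod_congr rfl (fun x _ => h3 x), Finset.prod_mul_distrib, Finset.prod_const,
      ← Finset.prod_filter, Finset.prod_const]
    have h4 : (Finset.univ.filter (fun x => x ∈ W)) = W := by ext x; simp
    rw [h4, hW, Finset.card_univ]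
    ring
  rw [← h2]
  exact_mod_cast h1

open Pool.Agent.Helper635.LLL in
theorem stage (N : V → Finset V) (t δ b K K' : ℕ) (hcard : ∀ x, (N x).card = t * δ)
    (ht : 0 < t) (hδ : 0 < δ) (hK0 : 0 < K) (hK0' : 0 < K')
    (pos lo hi : V → ℕ) (hlh : ∀ x, lo x ≤ hi x)
    (A A' : V → V → Prop) (hA : ∀ y v, A' y v → ∀ x ∈ N y, A x v)
    (rel : V → V → Prop) (hrel : ∀ x v, ∀ u ∈ N x, pos v ≤ hi u → rel x v)
    (hcap : ∀ x v, A x v → ((N x).filter (fun u => lo u ≤ pos v ∧ pos v ≤ hi u)).card ≤ b)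
    (hK : ∀ x, (Finset.univ.filter (fun v => A x v ∧ rel x v)).card ≤ K)
    (hK' : ∀ v, (Finset.univ.filter (fun y => A' y v)).card ≤ K')
    (hnum : 4 * (((b : ℝ) + 1) / t) ^ (b + 1) * (((b + 1) * (K * (K' * δ ^ b)) : ℕ) : ℝ) ≤ 1) :
    ∃ (N' : V → Finset V) (lo' hi' : V → ℕ), (∀ x, N' x ⊆ N x) ∧ (∀ x, (N' x).card = δ) ∧
      (∀ x, lo' x ≤ hi' x) ∧ (∀ x, ∀ u ∈ N' x, lo' x ≤ lo u ∧ hi u ≤ hi' x) ∧
      (∀ x, ∃ u ∈ N' x, hi' x = hi u) ∧
      ∀ y v, A' y v → ((N' y).filter (fun x => lo' x ≤ pos v ∧ pos v ≤ hi' x)).card ≤ b := by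
  choose β hβ1 hβ2 hβ3 using fun x => blocks lo δ t (N x) (hcard x)
  set blk : V → ℕ → Finset V := fun x i => (N x).filter (fun u => β x u = i) with hblk
  have hblksub : ∀ x i, blk x i ⊆ N x := fun x i => Finset.filter_subset _ _
  have hblkcard : ∀ x i, (blk x i).card ≤ δ := by
    intro x i
    by_cases h : i < t
    · exact (hβ2 x i h).le
    · have : blk x i = ∅ := by
        rw [hblk]
        apply Finset.filter_eq_empty_iff.2
        intro u hu he
        exact h (he ▸ hβ1 x u hu)
      rw [this]; simp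
  set B : V × Finset V → (V → Fin t) → Prop := fun w ω =>
    ∀ x ∈ w.2, Cap lo hi (pos w.1) (blk x (ω x : ℕ)) with hB
  set I : Finset (V × Finset V) := Finset.univ.filter (fun w => w.2.card = b + 1 ∧
    (∃ y, A' y w.1 ∧ ∃ i, w.2 ⊆ blk y i) ∧ ∀ x ∈ w.2, rel x w.1) with hI
  have hIA : ∀ w ∈ I, ∀ x ∈ w.2, A x w.1 := by
    intro w hw x hx
    rw [hI, Finset.mem_filter] at hw
    obtain ⟨-, -, ⟨y, hy, i, hi'⟩, -⟩ := hw
    exact hA y w.1 hy x (hblksub y i (hi' hx))
  obtain ⟨ω, hω⟩ := lll (T := V) (C := Fin t) I B (fun w => w.2) (by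
      intro w _ ω ω' hag h x hx
      have := h x hx
      rw [hag x hx] at this
      exact this) ((((b : ℝ) + 1) / t) ^ (b + 1)) ((b + 1) * (K * (K' * δ ^ b)))
    (by positivity) (by
      intro w hw
      have hw' := hw
      rw [hI, Finset.mem_filter] at hw'
      apply cnt_le t b ht w.2 hw'.2.1 (fun x => (Finset.univ : Finset (Fin t)).filter
        (fun i : Fin t => Cap lo hi (pos w.1) ((N x).filter (fun u => β x u = (i : ℕ)))))
      · intro x hx
        exact cap_count (N x) t b lo hi hlh (β x) (hβ3 x) (pos w.1) (hcap x w.1 (hIA w hw x hx))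
      · intro ω hω x hx
        rw [Finset.mem_filter]
        exact ⟨Finset.mem_univ _, hω x hx⟩) (by
      intro w hw
      set J : Finset (V × Finset V) := w.2.biUnion fun x =>
        (Finset.univ.filter (fun v' => A x v' ∧ rel x v')).biUnion fun v' =>
          (Finset.univ.filter (fun y' => A' y' v')).biUnion fun y' =>
            (Finset.powersetCard b (blk y' (β y' x))).image (fun Z => (v', insert x Z)) with hJ
      have hJcard : J.card ≤ (b + 1) * (K * (K' * δ ^ b)) := by
        rw [hI, Finset.mem_filter] at hw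
        rw [hJ]
        refine le_trans (Finset.card_biUnion_le_card_mul _ _ (K * (K' * δ ^ b)) ?_) ?_
        · intro x _
          refine le_trans (Finset.card_biUnion_le_card_mul _ _ (K' * δ ^ b) ?_)
            (Nat.mul_le_mul_right _ (hK x))
          intro v' _
          refine le_trans (Finset.card_biUnion_le_card_mul _ _ (δ ^ b) ?_)
            (Nat.mul_le_mul_right _ (hK' v'))
          intro y' _
          refine le_trans Finset.card_image_le ?_
          rw [Finset.card_powersetCard]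
          exact le_trans (Nat.choose_le_choose b (hblkcard y' _)) (Nat.choose_le_pow δ b)
        · rw [hw.2.1]
      refine le_trans (Finset.card_le_card ?_) hJcard
      intro j hj
      rw [Finset.mem_filter] at hj
      obtain ⟨hjI, hnd⟩ := hj
      rw [Finset.not_disjoint_iff] at hnd
      obtain ⟨x, hx, hx'⟩ := hnd
      have hjA := hIA j hjI x hx'
      rw [hI, Finset.mem_filter] at hjI
      obtain ⟨-, hjc, ⟨y', hy', i, hji⟩, hjrel⟩ := hjI
      have hxb := hji hx'
      rw [hblk, Finset.mem_filter] at hxb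
      rw [hJ, Finset.mem_biUnion]
      refine ⟨x, hx, ?_⟩
      rw [Finset.mem_biUnion]
      refine ⟨j.1, by rw [Finset.mem_filter]; exact ⟨Finset.mem_univ _, hjA, hjrel x hx'⟩, ?_⟩
      rw [Finset.mem_biUnion]
      refine ⟨y', by rw [Finset.mem_filter]; exact ⟨Finset.mem_univ _, hy'⟩, ?_⟩
      rw [Finset.mem_image]
      refine ⟨j.2.erase x, ?_, ?_⟩
      · rw [Finset.mem_powersetCard]
        refine ⟨?_, by rw [Finset.card_erase_of_mem hx', hjc]; omega⟩
        intro z hz
        rw [hxb.2]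
        exact hji (Finset.mem_of_mem_erase hz)
      · rw [Finset.insert_erase hx'])
    hnum (by
      have : 0 < (b + 1) * (K * (K' * δ ^ b)) := by positivity
      omega) (by
      rw [Fintype.card_pos_iff]
      exact ⟨fun _ => ⟨0, ht⟩⟩)
  have hne : ∀ x, (blk x (ω x : ℕ)).Nonempty := by
    intro x
    rw [← Finset.card_pos]
    have := hβ2 x (ω x) (ω x).2
    rw [← this] at hδ
    exact hδ
  refine ⟨fun x => blk x (ω x), fun x => (blk x (ω x : ℕ)).inf' (hne x) lo,
    fun x => (blk x (ω x : ℕ)).sup' (hne x) hi, fun x => hblksub x _, fun x => hβ2 x _ (ω x).2,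
    ?_, ?_, ?_, ?_⟩
  · intro x
    obtain ⟨u, hu⟩ := hne x
    exact le_trans (Finset.inf'_le lo hu) (le_trans (hlh u) (Finset.le_sup' hi hu))
  · intro x u hu
    exact ⟨Finset.inf'_le lo hu, Finset.le_sup' hi hu⟩
  · intro x
    obtain ⟨u, hu, he⟩ := Finset.exists_mem_eq_sup' (hne x) hi
    exact ⟨u, hu, he⟩
  · intro y v hyv
    by_contra hlt
    push Not at hlt
    obtain ⟨W, hWsub, hWc⟩ := Finset.exists_subset_card_eq (Nat.succ_le_of_lt hlt)
    have hW : ∀ x ∈ W, x ∈ blk y (ω y) ∧ (blk x (ω x : ℕ)).inf' (hne x) lo ≤ pos v ∧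
        pos v ≤ (blk x (ω x : ℕ)).sup' (hne x) hi := by
      intro x hx
      have := hWsub hx
      rw [Finset.mem_filter] at this
      exact this
    have hcapW : ∀ x ∈ W, Cap lo hi (pos v) (blk x (ω x : ℕ)) := by
      intro x hx
      obtain ⟨-, h1, h2⟩ := hW x hx
      obtain ⟨u, hu, he⟩ := Finset.exists_mem_eq_inf' (hne x) lo
      obtain ⟨u', hu', he'⟩ := Finset.exists_mem_eq_sup' (hne x) hi
      exact ⟨⟨u, hu, by rw [← he]; exact h1⟩, ⟨u', hu', by rw [← he']; exact h2⟩⟩
    apply hω (v, W) _ hcapW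
    rw [hI, Finset.mem_filter]
    refine ⟨Finset.mem_univ _, hWc, ⟨y, hyv, (ω y : ℕ), fun x hx => (hW x hx).1⟩, ?_⟩
    intro x hx
    obtain ⟨-, u', hu', h2⟩ := hcapW x hx
    exact hrel x v u' (hblksub x _ hu') h2

end Pool.Agent.TH418.OC
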