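import Mathlib
import Pool.Agent.TH418.OC.Pass
import Pool.Agent.TH418.OC.Order
import Pool.Agent.TH418.OC.Stage

set_option autoImplicit false
open Classical

/-!
# The `p`-step colouring lemma (for MP_fac9f6_co)
-/

namespace Pool.Agent.TH418.OC

/-- out-degrees at the different stages -/
def dd (s b : ℕ) : ℕ → ℕ
  | 0 => s
  | i + 1 => (s * (b + 1) * dd s b i) * dd s b i

lemma dd_pos {s b : ℕ} (hs : 0 < s) : ∀ i, 0 < dd s b i
  | 0 => hs
  | i + 1 => by
    have := dd_pos (b := b) hs i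
    unfold dd
    positivity

lemma dd_mono {s b : ℕ} (hs : 0 < s) (i : ℕ) : dd s b i ≤ dd s b (i + 1) := by
  have h := dd_pos (b := b) hs i
  show dd s b i ≤ (s * (b + 1) * dd s b i) * dd s b i
  exact Nat.le_mul_of_pos_left _ (by positivity)

lemma dd_le {s b : ℕ} (hs : 0 < s) (i : ℕ) :
    ((b + 1) * s) * dd s b i ≤ ((b + 1) * s) ^ (2 ^ (i + 1)) := by
  induction i with
  | zero =>
    show ((b + 1) * s) * s ≤ _
    have : s ≤ (b + 1) * s := Nat.le_mul_of_pos_left _ (by omega)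
    calc ((b + 1) * s) * s ≤ ((b + 1) * s) * ((b + 1) * s) := Nat.mul_le_mul_left _ this
      _ = ((b + 1) * s) ^ (2 ^ (0 + 1)) := by norm_num [pow_two]
  | succ i ih =>
    calc ((b + 1) * s) * dd s b (i + 1)
        = (((b + 1) * s) * dd s b i) ^ 2 := by
          show ((b + 1) * s) * ((s * (b + 1) * dd s b i) * dd s b i) = _
          ring
      _ ≤ (((b + 1) * s) ^ (2 ^ (i + 1))) ^ 2 := Nat.pow_le_pow_left ih 2
      _ = ((b + 1) * s) ^ (2 ^ (i + 1 + 1)) := by
          rw [← pow_mul]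
          congr 1

/-- numerical condition, integer form -/
lemma num_nat (p b s d : ℕ) (hb : b = 2 * (2 ^ p * (2 * p))) (hs : 4 * (p + 1) * (b + 1) ≤ s)
    (hd : d ≤ ((b + 1) * s) ^ (2 ^ p)) :
    4 * ((b + 1) * (((p + 1) * d ^ p) * d ^ p)) ≤ s ^ (b + 1) := by
  set e : ℕ := 2 ^ p * (2 * p) with he
  have h1 : d ^ p * d ^ p ≤ ((b + 1) * s) ^ e := by
    calc d ^ p * d ^ p = d ^ (2 * p) := by rw [← pow_add]; congr 1; ring
      _ ≤ (((b + 1) * s) ^ (2 ^ p)) ^ (2 * p) := Nat.pow_le_pow_left hd _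
      _ = ((b + 1) * s) ^ e := by rw [← pow_mul]
  have h2 : 4 * (p + 1) * (b + 1) ^ (e + 1) ≤ s ^ (e + 1) := by
    calc 4 * (p + 1) * (b + 1) ^ (e + 1)
        ≤ (4 * (p + 1)) ^ (e + 1) * (b + 1) ^ (e + 1) :=
          Nat.mul_le_mul_right _ (Nat.le_self_pow (by omega) _)
      _ = (4 * (p + 1) * (b + 1)) ^ (e + 1) := by rw [← mul_pow]
      _ ≤ s ^ (e + 1) := Nat.pow_le_pow_left hs _
  calc 4 * ((b + 1) * (((p + 1) * d ^ p) * d ^ p))
      = (4 * (p + 1) * (b + 1)) * (d ^ p * d ^ p) := by ring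
    _ ≤ (4 * (p + 1) * (b + 1)) * ((b + 1) * s) ^ e := Nat.mul_le_mul_left _ h1
    _ = (4 * (p + 1) * (b + 1) ^ (e + 1)) * s ^ e := by rw [mul_pow]; ring
    _ ≤ s ^ (e + 1) * s ^ e := Nat.mul_le_mul_right _ h2
    _ = s ^ (b + 1) := by rw [← pow_add, hb]; congr 1; omega

/-- numerical condition, real form -/
lemma num_real (p b s d δ : ℕ) (hb : b = 2 * (2 ^ p * (2 * p))) (hs : 4 * (p + 1) * (b + 1) ≤ s)
    (hd : d ≤ ((b + 1) * s) ^ (2 ^ p)) (hδ : 0 < δ) :
    4 * (((b : ℝ) + 1) / ((s * (b + 1) * δ : ℕ) : ℝ)) ^ (b + 1) *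
      (((b + 1) * (((p + 1) * d ^ p) * (d ^ p * δ ^ b)) : ℕ) : ℝ) ≤ 1 := by
  have hnat := num_nat p b s d hb hs hd
  have hs0 : 0 < s := lt_of_lt_of_le (by positivity) hs
  have hsR : (0 : ℝ) < s := by exact_mod_cast hs0
  have hδR : (0 : ℝ) < δ := by exact_mod_cast hδ
  have hδ1 : (1 : ℝ) ≤ δ := by exact_mod_cast hδ
  have hbR : (0 : ℝ) < (b : ℝ) + 1 := by positivity
  have h1 : ((b : ℝ) + 1) / ((s * (b + 1) * δ : ℕ) : ℝ) = 1 / (s * δ) := by
    push_cast
    field_simp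
  rw [h1]
  have h2 : (4 : ℝ) * (((b : ℝ) + 1) * ((((p : ℝ) + 1) * (d : ℝ) ^ p) * (d : ℝ) ^ p))
      ≤ (s : ℝ) ^ (b + 1) := by
    exact_mod_cast hnat
  push_cast
  rw [div_pow, one_pow, mul_pow]
  have h3 : 4 * (1 / ((s : ℝ) ^ (b + 1) * (δ : ℝ) ^ (b + 1))) *
      (((b : ℝ) + 1) * ((((p : ℝ) + 1) * (d : ℝ) ^ p) * ((d : ℝ) ^ p * (δ : ℝ) ^ b)))
      = ((4 : ℝ) * (((b : ℝ) + 1) * ((((p : ℝ) + 1) * (d : ℝ) ^ p) * (d : ℝ) ^ p)))
        / (s : ℝ) ^ (b + 1) / δ := by
    field_simp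
    ring
  rw [h3]
  have h4 : ((4 : ℝ) * (((b : ℝ) + 1) * ((((p : ℝ) + 1) * (d : ℝ) ^ p) * (d : ℝ) ^ p)))
        / (s : ℝ) ^ (b + 1) ≤ 1 := by
    rw [div_le_one (by positivity)]
    exact h2
  rw [div_le_one hδR]
  exact h4.trans hδ1

/-- all stages -/
theorem stages {V : Type} [Fintype V] (p b s : ℕ) (hp : 1 ≤ p) (hb : b = 2 * (2 ^ p * (2 * p)))
    (hs : 4 * (p + 1) * (b + 1) ≤ s) (N : V → Finset V)
    (hN : ∀ x, (N x).card = dd s b (p - 1)) (pos : V → ℕ) (hinj : Function.Injective pos)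
    (hpos : ∀ x j r, j + r = p →
      (Finset.univ.filter (fun v => x ∈ R N j v ∧ ∃ z ∈ R N r x, pos v ≤ pos z)).card
        ≤ (p + 1) * (dd s b (p - 1)) ^ p) :
    ∀ r, r ≤ p - 1 → ∃ (N' : V → Finset V) (lo hi : V → ℕ), (∀ x, N' x ⊆ N x) ∧
      (∀ x, (N' x).card = dd s b (p - 1 - r)) ∧ (∀ x, lo x ≤ hi x) ∧
      (∀ x, ∀ z ∈ R N' r x, lo x ≤ pos z ∧ pos z ≤ hi x) ∧
      (∀ x, ∃ z ∈ R N r x, hi x ≤ pos z) ∧
      (∀ x v, x ∈ R N (p - 1 - r) v →
        ((N' x).filter (fun u => lo u ≤ pos v ∧ pos v ≤ hi u)).card ≤ b) := by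
  have hs0 : 0 < s := lt_of_lt_of_le (by positivity) hs
  set d := dd s b (p - 1) with hd
  have hd0 : 0 < d := dd_pos hs0 _
  have hb1 : 1 ≤ b := by
    have : 0 < 2 ^ p * (2 * p) := by positivity
    omega
  have hdle : d ≤ ((b + 1) * s) ^ (2 ^ p) := by
    have h1 := dd_le (b := b) hs0 (p - 1)
    have h2 : p - 1 + 1 = p := by omega
    rw [h2] at h1
    exact le_trans (Nat.le_mul_of_pos_left _ (by positivity)) h1
  intro r
  induction r with
  | zero =>
    intro _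
    refine ⟨N, pos, pos, fun x => Finset.Subset.refl _, fun x => hN x, fun x => le_rfl, ?_, ?_, ?_⟩
    · intro x z hz
      rw [mem_R_zero] at hz
      rw [hz]
      exact ⟨le_rfl, le_rfl⟩
    · intro x
      exact ⟨x, mem_R_zero.2 rfl, le_rfl⟩
    · intro x v _
      refine le_trans (Finset.card_le_one.2 ?_) hb1
      intro a ha c hc
      rw [Finset.mem_filter] at ha hc
      apply hinj
      omega
  | succ r ih =>
    intro hr
    obtain ⟨N1, lo, hi, hsub, hcard, hlh, hwalk, htop, hcap⟩ := ih (by omega)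
    obtain ⟨i, hi1⟩ : ∃ i, i = p - 1 - (r + 1) := ⟨_, rfl⟩
    have hi2 : p - 1 - r = i + 1 := by omega
    rw [← hi1]
    rw [hi2] at hcard hcap
    have hδ : 0 < dd s b i := dd_pos hs0 i
    obtain ⟨N', lo', hi', h1, h2, h3, h4, h5, h6⟩ := stage N1 (s * (b + 1) * dd s b i) (dd s b i) b
      ((p + 1) * d ^ p) (d ^ p) (fun x => hcard x) (by positivity) hδ (by positivity)
      (by positivity) pos lo hi hlh (fun x v => x ∈ R N (i + 1) v) (fun y v => y ∈ R N i v)
      (fun y v hy x hx => R_append hy (hsub y hx))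
      (fun x v => ∃ z ∈ R N (r + 1) x, pos v ≤ pos z)
      (by
        intro x v u hu hle
        obtain ⟨z, hz, hle'⟩ := htop u
        exact ⟨z, mem_R_succ.2 ⟨u, hsub x hu, hz⟩, hle.trans hle'⟩)
      (fun x v hx => hcap x v hx)
      (by
        intro x
        refine le_trans (le_of_eq ?_) (hpos x (i + 1) (r + 1) (by omega))
        congr 1
        ext v
        simp only [Finset.mem_filter])
      (by
        intro v
        refine le_trans (Finset.card_le_card (t := R N i v) (by intro y hy; simpa using hy)) ?_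
        refine le_trans (R_card (fun x => (hN x).le) i v) ?_
        exact Nat.pow_le_pow_right hd0 (by omega))
      (num_real p b s d (dd s b i) hb hs hdle hδ)
    refine ⟨N', lo', hi', fun x => (h1 x).trans (hsub x), h2, h3, ?_, ?_, h6⟩
    · intro x z hz
      rw [mem_R_succ] at hz
      obtain ⟨u, hu, hz⟩ := hz
      have h7 := hwalk u z (R_mono h1 r u hz)
      have h8 := h4 x u hu
      omega
    · intro x
      obtain ⟨u, hu, he⟩ := h5 x
      obtain ⟨z, hz, hle⟩ := htop u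
      exact ⟨z, mem_R_succ.2 ⟨u, hsub x (h1 x hu), hz⟩, by rw [he]; exact hle⟩

/-- the `p`-step colouring lemma -/
theorem colour (p k : ℕ) (hp : 1 ≤ p) : ∃ d : ℕ, ∀ (V : Type) [Fintype V] (N : V → Finset V),
    (∀ v, v ∉ N v) → (∀ v, d ≤ (N v).card) → ∃ (N' : V → Finset V) (g : V → Bool × Bool),
      (∀ x, N' x ⊆ N x) ∧ (∀ x, k ≤ (N' x).card) ∧ ∀ v, ∀ y ∈ R N' p v, g y ≠ g v := by
  obtain ⟨b, hb⟩ : ∃ b, b = 2 * (2 ^ p * (2 * p)) := ⟨_, rfl⟩
  obtain ⟨k', hk'⟩ : ∃ k', k' = 2 ^ p * (2 ^ p * (k + 1)) := ⟨_, rfl⟩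
  obtain ⟨s, hs'⟩ : ∃ s, s = 4 * (p + 1) * (b + 1) + b + 2 * k' := ⟨_, rfl⟩
  have hk'0 : 0 < k' := by rw [hk']; positivity
  have hs : 4 * (p + 1) * (b + 1) ≤ s := by omega
  refine ⟨dd s b (p - 1), ?_⟩
  intro V _ N0 hloop0 hcard0
  -- exact out-degree
  choose N hNsub hN using fun v => Finset.exists_subset_card_eq (hcard0 v)
  have hloop : ∀ v, v ∉ N v := fun v hv => hloop0 v (hNsub v hv)
  obtain ⟨pos, hinj, hpos⟩ := order N (dd s b (p - 1)) (fun x => (hN x).le) p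
  obtain ⟨N1, lo, hi, hsub, hcard, hlh, hwalk, -, hcap⟩ :=
    stages p b s hp hb hs N hN pos hinj hpos (p - 1) le_rfl
  have hcard' : ∀ x, (N1 x).card = s := by
    intro x
    have := hcard x
    rwa [Nat.sub_self] at this
  have hcap' : ∀ v, ((N1 v).filter (fun u => lo u ≤ pos v ∧ pos v ≤ hi u)).card ≤ b := by
    intro v
    apply hcap v v
    rw [Nat.sub_self, mem_R_zero]
  set Up : V → Finset V := fun v => (N1 v).filter (fun u => pos v < lo u) with hUp
  set Dn : V → Finset V := fun v => (N1 v).filter (fun u => hi u < pos v) with hDn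
  set U : V → Prop := fun v => k' ≤ (Up v).card with hU
  have hDncard : ∀ v, ¬ U v → k' ≤ (Dn v).card := by
    intro v hv
    have h1 : (N1 v).card ≤ ((N1 v).filter (fun u => lo u ≤ pos v ∧ pos v ≤ hi u)).card
        + ((Up v).card + (Dn v).card) := by
      refine le_trans (Finset.card_le_card ?_) (le_trans (Finset.card_union_le _ _)
        (Nat.add_le_add_left (Finset.card_union_le _ _) _))
      intro u hu
      rw [Finset.mem_union, Finset.mem_union, hUp, hDn, Finset.mem_filter, Finset.mem_filter,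
        Finset.mem_filter]
      by_cases h : pos v < lo u
      · exact Or.inr (Or.inl ⟨hu, h⟩)
      · by_cases h' : hi u < pos v
        · exact Or.inr (Or.inr ⟨hu, h'⟩)
        · exact Or.inl ⟨hu, by omega, by omega⟩
    have h2 := hcap' v
    have h3 := hcard' v
    have h4 : (Up v).card < k' := by
      rw [hU] at hv
      exact not_le.1 hv
    omega
  set N2 : V → Finset V := fun v => if U v then Up v else Dn v with hN2
  have hN2card : ∀ v, k' ≤ (N2 v).card := by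
    intro v
    by_cases h : U v
    · simp only [hN2, h, if_true]; exact h
    · simp only [hN2, h, if_false]; exact hDncard v h
  have hN21 : ∀ v, N2 v ⊆ N1 v := by
    intro v
    by_cases h : U v
    · simp only [hN2, h, if_true]; exact Finset.filter_subset _ _
    · simp only [hN2, h, if_false]; exact Finset.filter_subset _ _
  have hp1 : p = (p - 1) + 1 := by omega
  have hwalk2 : ∀ v, ∀ y ∈ R N2 p v, ∃ u ∈ N2 v, lo u ≤ pos y ∧ pos y ≤ hi u := by
    intro v y hy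
    rw [hp1, mem_R_succ] at hy
    obtain ⟨u, hu, hy⟩ := hy
    exact ⟨u, hu, hwalk u y (R_mono hN21 (p - 1) u hy)⟩
  have hUpos : ∀ v, U v → ∀ y ∈ R N2 p v, pos v < pos y := by
    intro v hv y hy
    obtain ⟨u, hu, h1, h2⟩ := hwalk2 v y hy
    simp only [hN2, hv, if_true, hUp, Finset.mem_filter] at hu
    omega
  have hDpos : ∀ v, ¬ U v → ∀ y ∈ R N2 p v, pos y < pos v := by
    intro v hv y hy
    obtain ⟨u, hu, h1, h2⟩ := hwalk2 v y hy
    simp only [hN2, hv, if_false, hDn, Finset.mem_filter] at hu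
    omega
  have hne2 : ∀ x, (N2 x).Nonempty := by
    intro x
    rw [← Finset.card_pos]
    have := hN2card x
    omega
  obtain ⟨N3, g1, hN32, hN3card, hg1⟩ := pass N2 hne2 pos p hp U hUpos
  have hN3card' : ∀ x, 2 ^ p * (k + 1) ≤ (N3 x).card := by
    intro x
    have h1 := (hN2card x).trans (hN3card x)
    rw [hk'] at h1
    exact Nat.le_of_mul_le_mul_left h1 (by positivity)
  have hne3 : ∀ x, (N3 x).Nonempty := by
    intro x
    rw [← Finset.card_pos]
    have h1 := hN3card' x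
    have h2 : 0 < 2 ^ p * (k + 1) := by positivity
    omega
  obtain ⟨P, hP⟩ : ∃ P, P = Finset.univ.sup pos := ⟨_, rfl⟩
  have hPle : ∀ v, pos v ≤ P := fun v => by rw [hP]; exact Finset.le_sup (Finset.mem_univ v)
  obtain ⟨N4, g2, hN43, hN4card, hg2⟩ := pass N3 hne3 (fun v => P - pos v) p hp (fun v => ¬ U v)
    (by
      intro v hv y hy
      have h1 := hDpos v hv y (R_mono hN32 p v hy)
      have h2 := hPle v
      have h3 := hPle y
      omega)
  refine ⟨N4, fun v => (g1 v, g2 v), fun x => (hN43 x).trans ((hN32 x).trans ((hN21 x).trans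
    ((hsub x).trans (hNsub x)))), ?_, ?_⟩
  · intro x
    have h1 := (hN3card' x).trans (hN4card x)
    have h2 := Nat.le_of_mul_le_mul_left h1 (by positivity)
    omega
  · intro v y hy he
    rw [Prod.mk.injEq] at he
    by_cases h : U v
    · exact hg1 v h y (R_mono hN43 p v hy) he.1
    · exact hg2 v h y hy he.2

end Pool.Agent.TH418.OC
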