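import Mathlib
import Pool.Agent.TH418.OC.Basic
import Pool.Agent.TH418.OC.Colour

set_option autoImplicit false
open Classical

/-!
# Closed walks with non-zero net length can be destroyed (for MP_fac9f6_co)

`core` : for all `n`, `k` there is `d` such that every finite loopless digraph with all out-degrees
at least `d` has a spanning subdigraph with all out-degrees at least `k` in which every closed walk
of length at most `n` (arcs may be used in both directions) uses as many arcs forwards as backwards.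
-/

namespace Pool.Agent.TH418.OC

/-- the colouring lemma for all lengths `p ≤ n` simultaneously -/
theorem colours (n : ℕ) : ∀ k : ℕ, ∃ d : ℕ, ∀ (V : Type) [Fintype V] (N : V → Finset V),
    (∀ v, v ∉ N v) → (∀ v, d ≤ (N v).card) → ∃ (N' : V → Finset V) (g : ℕ → V → Bool × Bool),
      (∀ x, N' x ⊆ N x) ∧ (∀ x, k ≤ (N' x).card) ∧
        ∀ p, 1 ≤ p → p ≤ n → ∀ v, ∀ y ∈ R N' p v, g p y ≠ g p v := by
  induction n with
  | zero =>
    intro k
    refine ⟨k, fun V _ N _ hd => ⟨N, fun _ _ => (true, true), fun x => Finset.Subset.refl _, hd, ?_⟩⟩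
    intro p h1 h2
    omega
  | succ n ih =>
    intro k
    obtain ⟨d1, hd1⟩ := colour (n + 1) k (by omega)
    obtain ⟨d, hd⟩ := ih d1
    refine ⟨d, fun V _ N hloop hN => ?_⟩
    obtain ⟨N1, g, hsub, hcard, hg⟩ := hd V N hloop hN
    obtain ⟨N2, g', hsub', hcard', hg'⟩ := hd1 V N1 (fun v hv => hloop v (hsub v hv)) hcard
    refine ⟨N2, Function.update g (n + 1) g', fun x => (hsub' x).trans (hsub x), hcard', ?_⟩
    intro p h1 h2 v y hy
    by_cases h : p = n + 1
    · subst h
      rw [Function.update_self]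
      exact hg' v y hy
    · rw [Function.update_of_ne h]
      exact hg p h1 (by omega) v y (R_mono hsub' p v hy)

/-- every closed walk of length at most `n` is balanced -/
theorem core (n k : ℕ) : ∃ d : ℕ, ∀ (V : Type) [Fintype V] (N : V → Finset V),
    (∀ v, v ∉ N v) → (∀ v, d ≤ (N v).card) → ∃ N' : V → Finset V,
      (∀ x, N' x ⊆ N x) ∧ (∀ x, k ≤ (N' x).card) ∧
      ∀ (l : ℕ) (x : ℕ → V) (H : ℕ → ℤ), l ≤ n → H 0 = 0 →
        (∀ j < l, (x (j + 1) ∈ N' (x j) ∧ H (j + 1) = H j + 1) ∨
          (x j ∈ N' (x (j + 1)) ∧ H (j + 1) = H j - 1)) → x l = x 0 → H l = 0 := by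
  obtain ⟨d, hd⟩ := colours n
    ((Fintype.card (Fin (n + 1) → Bool × Bool)) ^ (3 * n) * (k + 1))
  refine ⟨d, fun V _ N hloop hN => ?_⟩
  obtain ⟨N1, g, hsub1, hcard1, hg⟩ := hd V N hloop hN
  obtain ⟨N2, s, hs0, hsub2, hcard2, hty⟩ := types N1
    (fun v => (fun i : Fin (n + 1) => g i v)) (3 * n)
  have hcard : ∀ x, k + 1 ≤ (N2 x).card := fun x =>
    Nat.le_of_mul_le_mul_left ((hcard1 x).trans (hcard2 x)) (by positivity)
  refine ⟨N2, fun x => (hsub2 x).trans (hsub1 x), fun x => (Nat.le_succ k).trans (hcard x), ?_⟩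
  intro l x H hl hH0 hstep hclosed
  have hne : ∀ v, (N2 v).Nonempty := by
    intro v
    rw [← Finset.card_pos]
    have := hcard v
    omega
  -- heights are small
  have hHb : ∀ j ≤ l, -(j : ℤ) ≤ H j ∧ H j ≤ j := by
    intro j
    induction j with
    | zero => intro _; rw [hH0]; simp
    | succ j ih =>
      intro hj
      have h1 := ih (by omega)
      push_cast
      rcases hstep j (by omega) with h | h <;> omega
  -- the types along the closed walk
  have hinv : ∀ i : ℤ, (n : ℤ) ≤ i → i ≤ 2 * n → ∀ j ≤ l,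
      s (i - H j).toNat (x j) = s i.toNat (x 0) := by
    intro i hi1 hi2 j
    induction j with
    | zero => intro _; rw [hH0]; simp
    | succ j ih =>
      intro hj
      have h1 := hHb j (by omega)
      have h2 := hHb (j + 1) hj
      push_cast at h2
      rw [← ih (by omega)]
      rcases hstep j (by omega) with ⟨h, hH⟩ | ⟨h, hH⟩
      · have h3 : (i - H j).toNat = (i - H (j + 1)).toNat + 1 := by omega
        rw [h3]
        exact hty _ (by omega) _ _ h
      · have h3 : (i - H (j + 1)).toNat = (i - H j).toNat + 1 := by omega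
        rw [h3]
        exact (hty _ (by omega) _ _ h).symm
  by_contra hne0
  -- the two types are equal
  obtain ⟨m, hm⟩ : ∃ m : ℕ, m = (H l).natAbs := ⟨_, rfl⟩
  have hbd := hHb l le_rfl
  have hm1 : 1 ≤ m := by omega
  have hmn : m ≤ n := by omega
  have hkey : s n (x 0) = s (n + m) (x 0) := by
    rcases lt_or_gt_of_ne hne0 with h | h
    · have h1 := hinv n le_rfl (by omega) l le_rfl
      have h2 : ((n : ℤ) - H l).toNat = n + m := by omega
      rw [h2, hclosed, Int.toNat_natCast] at h1
      exact h1.symm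
    · have h1 := hinv ((n + m : ℕ) : ℤ) (by omega) (by omega) l le_rfl
      have h2 : (((n + m : ℕ) : ℤ) - H l).toNat = n := by omega
      rw [h2, hclosed, Int.toNat_natCast] at h1
      exact h1
  obtain ⟨y, hy⟩ := R_nonempty hne n (x 0)
  obtain ⟨z, hz⟩ := R_nonempty hne m y
  have h1 := types_walk hty n (x 0) y hy 0 (by omega)
  have h2 := types_walk hty n (x 0) y hy m (by omega)
  have h3 := types_walk hty m y z hz 0 (by omega)
  rw [Nat.zero_add] at h1 h3
  rw [← h3] at h2
  have h4 : s 0 z = s 0 y := by rw [h1, h2, hkey, Nat.add_comm n m]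
  rw [hs0] at h4
  have h5 := congrFun h4 ⟨m, by omega⟩
  exact hg m hm1 hmn y z (R_mono hsub2 m y hz) h5

end Pool.Agent.TH418.OC
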